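import Mathlib.Combinatorics.SimpleGraph.Maps
import Mathlib.Tactic

/-!
# 3-neighbour bootstrap percolation on the strong product of two paths
-/

namespace Pool.Agent.Results.MP_87c242_co.AllGrids

open Finset Classical

/-- The strong product of the paths with `m` and with `n` vertices: distinct cells are adjacent
when both coordinates differ by at most one. -/
def strongGrid (m n : ℕ) : SimpleGraph (Fin m × Fin n) where
  Adj p q := p ≠ q ∧ (p.1.val ≤ q.1.val + 1 ∧ q.1.val ≤ p.1.val + 1) ∧
    (p.2.val ≤ q.2.val + 1 ∧ q.2.val ≤ p.2.val + 1)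
  symm := by
    constructor
    rintro p q ⟨h, h1, h2⟩
    exact ⟨h.symm, h1.symm, h2.symm⟩
  loopless := by
    constructor
    rintro p ⟨h, _⟩
    exact h rfl

section general

variable {V : Type} [Fintype V]

/-- One round of the `r`-neighbour process. -/
noncomputable def step (G : SimpleGraph V) (r : ℕ) (A : Finset V) : Finset V :=
  A ∪ univ.filter (fun v => r ≤ (A.filter (fun u => G.Adj v u)).card)

/-- The infected set after `t` rounds. -/
noncomputable def rounds (G : SimpleGraph V) (r : ℕ) (A : Finset V) : ℕ → Finset V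
  | 0 => A
  | t + 1 => step G r (rounds G r A t)

/-- Every vertex is eventually infected. -/
def FullyInfects (G : SimpleGraph V) (r : ℕ) (A : Finset V) : Prop :=
  ∀ v, ∃ t, v ∈ rounds G r A t

/-- The minimum size of an initial set which fully infects `G`. -/
noncomputable def minInfect (G : SimpleGraph V) (r : ℕ) : ℕ :=
  sInf {k | ∃ A : Finset V, A.card = k ∧ FullyInfects G r A}

theorem rounds_mono {G : SimpleGraph V} {r : ℕ} {A : Finset V} {s t : ℕ} (h : s ≤ t) :
    rounds G r A s ⊆ rounds G r A t := by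
  induction t with
  | zero =>
    have : s = 0 := by omega
    rw [this]
  | succ t ih =>
    rcases Nat.lt_or_ge s (t + 1) with h1 | h1
    · exact (ih (by omega)).trans subset_union_left
    · have : s = t + 1 := by omega
      rw [this]

/-- Three infected neighbours infect. -/
theorem infect {G : SimpleGraph V} {A : Finset V} {v a b c : V} (ha : G.Adj v a)
    (hb : G.Adj v b) (hc : G.Adj v c) (hab : a ≠ b) (hac : a ≠ c) (hbc : b ≠ c)
    (h1 : ∃ t, a ∈ rounds G 3 A t) (h2 : ∃ t, b ∈ rounds G 3 A t)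
    (h3 : ∃ t, c ∈ rounds G 3 A t) : ∃ t, v ∈ rounds G 3 A t := by
  obtain ⟨t1, h1⟩ := h1
  obtain ⟨t2, h2⟩ := h2
  obtain ⟨t3, h3⟩ := h3
  refine ⟨t1 + t2 + t3 + 1, ?_⟩
  have k1 := rounds_mono (t := t1 + t2 + t3) (by omega) h1
  have k2 := rounds_mono (t := t1 + t2 + t3) (by omega) h2
  have k3 := rounds_mono (t := t1 + t2 + t3) (by omega) h3
  change v ∈ step G 3 (rounds G 3 A (t1 + t2 + t3))
  unfold step
  rw [mem_union, mem_filter]
  refine Or.inr ⟨mem_univ _, ?_⟩
  have : ({a, b, c} : Finset V) ⊆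
      (rounds G 3 A (t1 + t2 + t3)).filter (fun u => G.Adj v u) := by
    intro x hx
    rw [mem_insert, mem_insert, mem_singleton] at hx
    rw [mem_filter]
    rcases hx with rfl | rfl | rfl
    · exact ⟨k1, ha⟩
    · exact ⟨k2, hb⟩
    · exact ⟨k3, hc⟩
  have h := card_le_card this
  rwa [card_eq_three.2 ⟨a, b, c, hab, hac, hbc, rfl⟩] at h

/-- A closed set containing the initial set contains everything. -/
theorem closed_univ {G : SimpleGraph V} {A : Finset V} {r : ℕ} (hA : FullyInfects G r A)
    (P : V → Prop) (h0 : ∀ v ∈ A, P v)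
    (hP : ∀ v, ¬ P v → ∀ S : Finset V, (∀ u ∈ S, P u ∧ G.Adj v u) → S.card < r) (v : V) :
    P v := by
  obtain ⟨t, ht⟩ := hA v
  have key : ∀ t, ∀ v ∈ rounds G r A t, P v := by
    intro t
    induction t with
    | zero => exact h0
    | succ t ih =>
      intro v hv
      change v ∈ step G r (rounds G r A t) at hv
      unfold step at hv
      rw [mem_union, mem_filter] at hv
      rcases hv with hv | ⟨-, hv⟩
      · exact ih v hv
      · by_contra hnp
        have := hP v hnp ((rounds G r A t).filter (fun u => G.Adj v u)) (by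
          intro u hu
          rw [mem_filter] at hu
          exact ⟨ih u hu.1, hu.2⟩)
        omega
  exact key t v ht

theorem minInfect_le {G : SimpleGraph V} {r : ℕ} {A : Finset V} {k : ℕ} (hk : A.card ≤ k)
    (h : FullyInfects G r A) : minInfect G r ≤ k :=
  (Nat.sInf_le (show A.card ∈ {k | ∃ A : Finset V, A.card = k ∧ FullyInfects G r A} from
    ⟨A, rfl, h⟩)).trans hk

theorem full_univ (G : SimpleGraph V) (r : ℕ) : FullyInfects G r univ :=
  fun v => ⟨0, mem_univ v⟩

theorem le_minInfect {G : SimpleGraph V} {r k : ℕ}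
    (h : ∀ A : Finset V, FullyInfects G r A → k ≤ A.card) : k ≤ minInfect G r := by
  have hne : ({k | ∃ A : Finset V, A.card = k ∧ FullyInfects G r A} : Set ℕ).Nonempty :=
    ⟨_, univ, rfl, full_univ G r⟩
  obtain ⟨A, hA, hA'⟩ := Nat.sInf_mem hne
  unfold minInfect
  rw [← hA]
  exact h A hA'

/-- Isomorphic graphs have the same minimum. -/
theorem minInfect_iso_le {W : Type} [Fintype W] {G : SimpleGraph V} {H : SimpleGraph W}
    (e : G ≃g H) (r : ℕ) : minInfect H r ≤ minInfect G r := by
  apply le_minInfect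
  intro A hA
  have key : ∀ t, (rounds G r A t).map e.toEquiv.toEmbedding =
      rounds H r (A.map e.toEquiv.toEmbedding) t := by
    intro t
    induction t with
    | zero => rfl
    | succ t ih =>
      change (step G r (rounds G r A t)).map _ = step H r (rounds H r _ t)
      rw [← ih]
      ext w
      unfold step
      rw [mem_map_equiv, mem_union, mem_union, mem_map_equiv, mem_filter, mem_filter]
      have hc : (filter (fun u => G.Adj (e.toEquiv.symm w) u) (rounds G r A t)).card =
          (filter (fun u => H.Adj w u) ((rounds G r A t).map e.toEquiv.toEmbedding)).card := by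
        rw [filter_map, card_map]
        congr 1
        apply filter_congr
        intro u _
        have := e.map_adj_iff (v := e.toEquiv.symm w) (w := u)
        change G.Adj _ u ↔ H.Adj w (e.toEquiv u)
        rw [← this]
        have h2 : e (e.toEquiv.symm w) = w := e.toEquiv.apply_symm_apply w
        rw [h2]
        exact Iff.rfl
      rw [hc]
      simp only [mem_univ, true_and]
  refine minInfect_le (A := A.map e.toEquiv.toEmbedding) (le_of_eq (card_map _)) ?_
  intro w
  obtain ⟨t, ht⟩ := hA (e.toEquiv.symm w)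
  refine ⟨t, ?_⟩
  rw [← key, mem_map_equiv]
  exact ht

end general

/-- `m_3(m, n)`. -/
noncomputable def m3 (m n : ℕ) : ℕ := minInfect (strongGrid m n) 3

theorem m3_comm (m n : ℕ) : m3 m n = m3 n m := by
  have key : ∀ m n, m3 n m ≤ m3 m n := by
    intro m n
    refine minInfect_iso_le (G := strongGrid m n) (H := strongGrid n m)
      ⟨Equiv.prodComm _ _, ?_⟩ 3
    intro p q
    simp only [strongGrid, Equiv.prodComm_apply, Prod.fst_swap, Prod.snd_swap]
    constructor
    · rintro ⟨h, h1, h2⟩
      exact ⟨fun e => h (by rw [e]), h2, h1⟩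
    · rintro ⟨h, h1, h2⟩
      exact ⟨fun e => h (Prod.swap_injective e), h2, h1⟩
  exact le_antisymm (key n m) (key m n)

/-- Sets whose members have one coordinate among at most two values and the other equal to a
fixed value. -/
theorem two_of_image {m n : ℕ} {S : Finset (Fin m × Fin n)} (f : Fin m × Fin n → ℕ) (a b : ℕ)
    (hf : ∀ u ∈ S, f u = a ∨ f u = b) (hinj : ∀ u ∈ S, ∀ w ∈ S, f u = f w → u = w) :
    S.card ≤ 2 := by
  have h1 : S.image f ⊆ {a, b} := by
    intro x hx
    obtain ⟨u, hu, rfl⟩ := mem_image.1 hx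
    rw [mem_insert, mem_singleton]
    exact hf u hu
  have h2 : (S.image f).card = S.card := card_image_of_injOn (fun u hu w hw h => hinj u hu w hw h)
  rw [← h2]
  exact (card_le_card h1).trans Finset.card_le_two

theorem one_row (n : ℕ) : m3 1 n = n := by
  apply le_antisymm
  · refine minInfect_le (A := univ) ?_ (full_univ _ _)
    rw [card_univ, Fintype.card_prod, Fintype.card_fin, Fintype.card_fin, one_mul]
  · apply le_minInfect
    intro A hA
    have h := closed_univ hA (fun v => v ∈ A) (fun v hv => hv) (by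
      intro v _ S hS
      have : S.card ≤ 2 := by
        refine two_of_image (fun u => u.2.val) (v.2.val - 1) (v.2.val + 1) ?_ ?_
        · intro u hu
          obtain ⟨_, hne, _, h2⟩ := hS u hu
          have h3 : v.2.val ≠ u.2.val := by
            intro e
            apply hne
            ext
            · omega
            · exact e
          change u.2.val = _ ∨ u.2.val = _
          omega
        · intro u _ w _ h
          ext
          · omega
          · exact h
      omega)
    have hA : A = univ := by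
      ext v
      exact ⟨fun _ => mem_univ _, fun _ => h v⟩
    rw [hA, card_univ, Fintype.card_prod, Fintype.card_fin, Fintype.card_fin, one_mul]

/-- The cell `(i, j)` lies in the grid and is eventually infected. -/
def Cell (m n : ℕ) (A : Finset (Fin m × Fin n)) (i j : ℕ) : Prop :=
  ∃ (hi : i < m) (hj : j < n), ∃ t, ((⟨i, hi⟩, ⟨j, hj⟩) : Fin m × Fin n) ∈
    rounds (strongGrid m n) 3 A t

theorem cell_of_mem {m n : ℕ} {A : Finset (Fin m × Fin n)} {i j : ℕ} (hi : i < m) (hj : j < n)
    (h : ((⟨i, hi⟩, ⟨j, hj⟩) : Fin m × Fin n) ∈ A) : Cell m n A i j := ⟨hi, hj, 0, h⟩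

theorem cell_infect {m n : ℕ} {A : Finset (Fin m × Fin n)} {i j a1 a2 b1 b2 c1 c2 : ℕ}
    (ha : Cell m n A a1 a2) (hb : Cell m n A b1 b2) (hc : Cell m n A c1 c2)
    (hij : i < m ∧ j < n)
    (h : ((a1 ≠ i ∨ a2 ≠ j) ∧ a1 ≤ i + 1 ∧ i ≤ a1 + 1 ∧ a2 ≤ j + 1 ∧ j ≤ a2 + 1) ∧
      ((b1 ≠ i ∨ b2 ≠ j) ∧ b1 ≤ i + 1 ∧ i ≤ b1 + 1 ∧ b2 ≤ j + 1 ∧ j ≤ b2 + 1) ∧
      ((c1 ≠ i ∨ c2 ≠ j) ∧ c1 ≤ i + 1 ∧ i ≤ c1 + 1 ∧ c2 ≤ j + 1 ∧ j ≤ c2 + 1) ∧
      (a1 ≠ b1 ∨ a2 ≠ b2) ∧ (a1 ≠ c1 ∨ a2 ≠ c2) ∧ (b1 ≠ c1 ∨ b2 ≠ c2)) :
    Cell m n A i j := by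
  obtain ⟨ha1, ha2, ha⟩ := ha
  obtain ⟨hb1, hb2, hb⟩ := hb
  obtain ⟨hc1, hc2, hc⟩ := hc
  obtain ⟨hi, hj⟩ := hij
  obtain ⟨h1, h2, h3, h4, h5, h6⟩ := h
  refine ⟨hi, hj, infect (a := (⟨a1, ha1⟩, ⟨a2, ha2⟩)) (b := (⟨b1, hb1⟩, ⟨b2, hb2⟩))
    (c := (⟨c1, hc1⟩, ⟨c2, hc2⟩)) ?_ ?_ ?_ ?_ ?_ ?_ ha hb hc⟩
  · refine ⟨?_, ⟨?_, ?_⟩, ?_, ?_⟩
    · intro e
      rw [Prod.mk.injEq, Fin.mk.injEq, Fin.mk.injEq] at e
      omega
    all_goals simp only
    all_goals omega
  · refine ⟨?_, ⟨?_, ?_⟩, ?_, ?_⟩
    · intro e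
      rw [Prod.mk.injEq, Fin.mk.injEq, Fin.mk.injEq] at e
      omega
    all_goals simp only
    all_goals omega
  · refine ⟨?_, ⟨?_, ?_⟩, ?_, ?_⟩
    · intro e
      rw [Prod.mk.injEq, Fin.mk.injEq, Fin.mk.injEq] at e
      omega
    all_goals simp only
    all_goals omega
  · intro e
    rw [Prod.mk.injEq, Fin.mk.injEq, Fin.mk.injEq] at e
    omega
  · intro e
    rw [Prod.mk.injEq, Fin.mk.injEq, Fin.mk.injEq] at e
    omega
  · intro e
    rw [Prod.mk.injEq, Fin.mk.injEq, Fin.mk.injEq] at e
    omega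

theorem full_of_cell {m n : ℕ} {A : Finset (Fin m × Fin n)}
    (h : ∀ i j, i < m → j < n → Cell m n A i j) : FullyInfects (strongGrid m n) 3 A := by
  intro v
  obtain ⟨_, _, h⟩ := h v.1.val v.2.val v.1.isLt v.2.isLt
  exact h

theorem large_le {m n : ℕ} (hm : 3 ≤ m) (hn : 3 ≤ n) : m3 m n ≤ 3 := by
  refine minInfect_le (A := {(⟨0, by omega⟩, ⟨1, by omega⟩), (⟨1, by omega⟩, ⟨0, by omega⟩),
    (⟨1, by omega⟩, ⟨2, by omega⟩)}) Finset.card_le_three (full_of_cell ?_)
  set A : Finset (Fin m × Fin n) := {(⟨0, by omega⟩, ⟨1, by omega⟩),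
    (⟨1, by omega⟩, ⟨0, by omega⟩), (⟨1, by omega⟩, ⟨2, by omega⟩)} with hAdef
  have c01 : Cell m n A 0 1 := cell_of_mem (by omega) (by omega) (by rw [hAdef]; simp)
  have c10 : Cell m n A 1 0 := cell_of_mem (by omega) (by omega) (by rw [hAdef]; simp)
  have c12 : Cell m n A 1 2 := cell_of_mem (by omega) (by omega) (by rw [hAdef]; simp)
  have c11 : Cell m n A 1 1 := cell_infect c01 c10 c12 (by omega) (by omega)
  have c00 : Cell m n A 0 0 := cell_infect c01 c10 c11 (by omega) (by omega)
  have c02 : Cell m n A 0 2 := cell_infect c01 c11 c12 (by omega) (by omega)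
  have c21 : Cell m n A 2 1 := cell_infect c10 c11 c12 (by omega) (by omega)
  have c20 : Cell m n A 2 0 := cell_infect c10 c11 c21 (by omega) (by omega)
  have c22 : Cell m n A 2 2 := cell_infect c11 c12 c21 (by omega) (by omega)
  have top : ∀ j, j < n → Cell m n A 0 j ∧ Cell m n A 1 j ∧ Cell m n A 2 j := by
    intro j
    induction j with
    | zero => exact fun _ => ⟨c00, c10, c20⟩
    | succ j ih =>
      intro hj
      rcases Nat.lt_or_ge j 2 with h2 | h2
      · have : j = 0 ∨ j = 1 := by omega
        rcases this with rfl | rfl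
        · exact ⟨c01, c11, c21⟩
        · exact ⟨c02, c12, c22⟩
      · obtain ⟨h0, h1, h2'⟩ := ih (by omega)
        have e1 : Cell m n A 1 (j + 1) := cell_infect h0 h1 h2' (by omega) (by omega)
        exact ⟨cell_infect h0 h1 e1 (by omega) (by omega), e1,
          cell_infect h1 h2' e1 (by omega) (by omega)⟩
  intro i
  induction i with
  | zero => exact fun j _ hj => (top j hj).1
  | succ i ih =>
    rcases Nat.lt_or_ge i 2 with h2 | h2
    · have : i = 0 ∨ i = 1 := by omega
      rcases this with rfl | rfl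
      · exact fun j _ hj => (top j hj).2.1
      · exact fun j _ hj => (top j hj).2.2
    · intro j hi
      have b1 : Cell m n A (i + 1) 1 := cell_infect (ih 0 (by omega) (by omega))
        (ih 1 (by omega) (by omega)) (ih 2 (by omega) (by omega)) (by omega) (by omega)
      induction j with
      | zero =>
        intro hj
        exact cell_infect (ih 0 (by omega) (by omega)) (ih 1 (by omega) (by omega)) b1
          (by omega) (by omega)
      | succ j ihj =>
        intro hj
        exact cell_infect (ih j (by omega) (by omega)) (ih (j + 1) (by omega) (by omega))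
          (ihj (by omega)) (by omega) (by omega)

/-- A fully infecting set with at most two elements is everything. -/
theorem two_univ {m n : ℕ} {A : Finset (Fin m × Fin n)}
    (hA : FullyInfects (strongGrid m n) 3 A) (h2 : A.card ≤ 2) : A = univ := by
  have h := closed_univ hA (fun v => v ∈ A) (fun v hv => hv) (by
    intro v _ S hS
    have : S ⊆ A := fun u hu => (hS u hu).1
    have := card_le_card this
    omega)
  ext v
  exact ⟨fun _ => mem_univ _, fun _ => h v⟩

theorem large_ge {m n : ℕ} (hm : 3 ≤ m) (hn : 3 ≤ n) : 3 ≤ m3 m n := by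
  apply le_minInfect
  intro A hA
  by_contra hlt
  have h := two_univ hA (by omega)
  have hc : A.card = m * n := by
    rw [h, card_univ, Fintype.card_prod, Fintype.card_fin, Fintype.card_fin]
  have : 3 * 3 ≤ m * n := Nat.mul_le_mul hm hn
  omega

theorem two_le {n : ℕ} (hn : 2 ≤ n) : m3 2 n ≤ n / 2 + 2 := by
  have hmin : ∀ t, min (2 * t + 2) (n - 1) < n := by intro t; omega
  set B : Finset (Fin 2 × Fin n) := {(0, ⟨0, by omega⟩), (1, ⟨0, by omega⟩)} with hB
  set C : Finset (Fin 2 × Fin n) :=
    (range (n / 2)).image (fun t => (0, ⟨min (2 * t + 2) (n - 1), hmin t⟩)) with hC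
  refine minInfect_le (A := C ∪ B) ?_ (full_of_cell ?_)
  · have h1 : B.card ≤ 2 := Finset.card_le_two
    have h2 : C.card ≤ n / 2 := card_image_le.trans (by rw [card_range])
    exact (card_union_le _ _).trans (by omega)
  have z0 : Cell 2 n (C ∪ B) 0 0 := cell_of_mem (by omega) (by omega)
    (mem_union_right _ (by rw [hB]; simp))
  have z1 : Cell 2 n (C ∪ B) 1 0 := cell_of_mem (by omega) (by omega)
    (mem_union_right _ (by rw [hB]; simp))
  have hc : ∀ t, t < n / 2 → Cell 2 n (C ∪ B) 0 (min (2 * t + 2) (n - 1)) := by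
    intro t ht
    refine cell_of_mem (by omega) (hmin t) (mem_union_left _ ?_)
    rw [hC, mem_image]
    exact ⟨t, mem_range.2 ht, rfl⟩
  have hev : ∀ j, 2 ≤ j → j % 2 = 0 → j < n → Cell 2 n (C ∪ B) 0 j := by
    intro j h1 h2 h3
    have := hc (j / 2 - 1) (by omega)
    have e : min (2 * (j / 2 - 1) + 2) (n - 1) = j := by omega
    rwa [e] at this
  have hlast : n % 2 = 0 → Cell 2 n (C ∪ B) 0 (n - 1) := by
    intro h
    have := hc (n / 2 - 1) (by omega)
    have e : min (2 * (n / 2 - 1) + 2) (n - 1) = n - 1 := by omega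
    rwa [e] at this
  have key : ∀ j, j < n → Cell 2 n (C ∪ B) 0 j ∧ Cell 2 n (C ∪ B) 1 j := by
    intro j
    induction j with
    | zero => exact fun _ => ⟨z0, z1⟩
    | succ j ih =>
      intro hj
      obtain ⟨h0, h1⟩ := ih (by omega)
      have e0 : Cell 2 n (C ∪ B) 0 (j + 1) := by
        rcases Nat.mod_two_eq_zero_or_one (j + 1) with hp | hp
        · exact hev (j + 1) (by omega) hp hj
        · rcases Nat.lt_or_ge (j + 2) n with h2 | h2
          · exact cell_infect h0 h1 (hev (j + 2) (by omega) (by omega) h2) (by omega) (by omega)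
          · have := hlast (by omega)
            have e : n - 1 = j + 1 := by omega
            rwa [e] at this
      exact ⟨e0, cell_infect h0 h1 e0 (by omega) (by omega)⟩
  intro i j hi hj
  have : i = 0 ∨ i = 1 := by omega
  rcases this with rfl | rfl
  · exact (key j hj).1
  · exact (key j hj).2

section lower

variable {n : ℕ}

/-- The number of cells of `A` in the columns `a ≤ j < b`. -/
noncomputable def F (A : Finset (Fin 2 × Fin n)) (a b : ℕ) : ℕ :=
  (A.filter (fun v => a ≤ v.2.val ∧ v.2.val < b)).card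

theorem F_add (A : Finset (Fin 2 × Fin n)) {a b c : ℕ} (h1 : a ≤ b) (h2 : b ≤ c) :
    F A a c = F A a b + F A b c := by
  unfold F
  rw [← card_union_of_disjoint]
  · congr 1
    ext v
    rw [mem_union, mem_filter, mem_filter, mem_filter]
    constructor
    · rintro ⟨h, h3, h4⟩
      rcases Nat.lt_or_ge v.2.val b with h5 | h5
      · exact Or.inl ⟨h, h3, h5⟩
      · exact Or.inr ⟨h, h5, h4⟩
    · rintro (⟨h, h3, h4⟩ | ⟨h, h3, h4⟩)
      · exact ⟨h, h3, by omega⟩
      · exact ⟨h, by omega, h4⟩
  · rw [disjoint_left]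
    intro v hv hw
    rw [mem_filter] at hv hw
    omega

theorem F_all (A : Finset (Fin 2 × Fin n)) : F A 0 n = A.card := by
  unfold F
  rw [filter_true_of_mem]
  intro v _
  exact ⟨Nat.zero_le _, v.2.isLt⟩

/-- At most two cells lie in a given column. -/
theorem column_le {S : Finset (Fin 2 × Fin n)} (c : ℕ) (h : ∀ u ∈ S, u.2.val = c) :
    S.card ≤ 2 := by
  refine two_of_image (fun u => u.1.val) 0 1 ?_ ?_
  · intro u _
    have := u.1.isLt
    change u.1.val = _ ∨ u.1.val = _
    omega
  · intro u hu w hw e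
    ext
    · exact e
    · rw [h u hu, h w hw]

theorem F_pos {A : Finset (Fin 2 × Fin n)} (hA : FullyInfects (strongGrid 2 n) 3 A) {a b : ℕ}
    (hab : a < b) (hb : b ≤ n) (h : b = a + 2 ∨ (b = a + 1 ∧ (a = 0 ∨ b = n))) :
    1 ≤ F A a b := by
  by_contra h0
  have h0 : F A a b = 0 := by omega
  unfold F at h0
  rw [card_eq_zero, filter_eq_empty_iff] at h0
  have := closed_univ hA (fun v => ¬ (a ≤ v.2.val ∧ v.2.val < b)) h0 (by
    intro v hv S hS
    rw [not_not] at hv
    have key : ∃ c, ∀ u ∈ S, u.2.val = c := by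
      rcases h with h | ⟨h, h'⟩
      · by_cases hva : v.2.val = a
        · refine ⟨a - 1, fun u hu => ?_⟩
          obtain ⟨h1, _, _, h2⟩ := hS u hu
          omega
        · refine ⟨b, fun u hu => ?_⟩
          obtain ⟨h1, _, _, h2⟩ := hS u hu
          omega
      · rcases h' with h' | h'
        · refine ⟨b, fun u hu => ?_⟩
          obtain ⟨h1, _, _, h2⟩ := hS u hu
          omega
        · refine ⟨a - 1, fun u hu => ?_⟩
          obtain ⟨h1, _, _, h2⟩ := hS u hu
          have := u.2.isLt
          omega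
    obtain ⟨c, hc⟩ := key
    have := column_le c hc
    omega) (0, ⟨a, by omega⟩)
  exact this ⟨le_refl _, hab⟩

theorem prefix_le {A : Finset (Fin 2 × Fin n)} (hA : FullyInfects (strongGrid 2 n) 3 A) :
    ∀ L, L ≤ n → L ≤ 2 * F A 0 L := by
  intro L
  induction L using Nat.twoStepInduction with
  | zero => intro _; omega
  | one =>
    intro h
    have := F_pos hA (a := 0) (b := 1) (by omega) h (by omega)
    omega
  | more L ih _ =>
    intro h
    have h1 := ih (by omega)
    have h2 := F_pos hA (a := L) (b := L + 2) (by omega) h (by omega)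
    have h3 := F_add A (a := 0) (b := L) (c := L + 2) (by omega) (by omega)
    omega

theorem suffix_le {A : Finset (Fin 2 × Fin n)} (hA : FullyInfects (strongGrid 2 n) 3 A) :
    ∀ L, L ≤ n → L ≤ 2 * F A (n - L) n := by
  intro L
  induction L using Nat.twoStepInduction with
  | zero => intro _; omega
  | one =>
    intro h
    have := F_pos hA (a := n - 1) (b := n) (by omega) (by omega) (by omega)
    omega
  | more L ih _ =>
    intro h
    have h1 := ih (by omega)
    have h2 := F_pos hA (a := n - (L + 2)) (b := n - L) (by omega) (by omega) (by omega)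
    have h3 := F_add A (a := n - (L + 2)) (b := n - L) (c := n) (by omega) (by omega)
    omega

theorem two_ge (hn : 2 ≤ n) : n / 2 + 2 ≤ m3 2 n := by
  apply le_minInfect
  intro A hA
  by_cases hj : ∃ j, j < n ∧ 3 ≤ F A (j - 1) (min (j + 2) n)
  · obtain ⟨j, hjn, hj⟩ := hj
    have h1 := prefix_le hA (j - 1) (by omega)
    have h2 := suffix_le hA (n - min (j + 2) n) (by omega)
    have e : n - (n - min (j + 2) n) = min (j + 2) n := by omega
    rw [e] at h2
    have h3 := F_add A (a := 0) (b := j - 1) (c := n) (by omega) (by omega)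
    have h4 := F_add A (a := j - 1) (b := min (j + 2) n) (c := n) (by omega) (by omega)
    rw [← F_all A]
    omega
  · have hj : ∀ j, j < n → F A (j - 1) (min (j + 2) n) ≤ 2 := by
      intro j hjn
      by_contra h
      exact hj ⟨j, hjn, by omega⟩
    have h := closed_univ hA (fun v => v ∈ A) (fun v hv => hv) (by
      intro v _ S hS
      have hsub : S ⊆ A.filter (fun u => v.2.val - 1 ≤ u.2.val ∧ u.2.val < min (v.2.val + 2) n) := by
        intro u hu
        obtain ⟨h1, _, _, h2⟩ := hS u hu
        rw [mem_filter]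
        have := u.2.isLt
        refine ⟨h1, ?_, ?_⟩
        · omega
        · omega
      have h1 := card_le_card hsub
      have h2 := hj v.2.val v.2.isLt
      unfold F at h2
      omega)
    have hA' : A = univ := by
      ext v
      exact ⟨fun _ => mem_univ _, fun _ => h v⟩
    rw [hA', card_univ, Fintype.card_prod, Fintype.card_fin, Fintype.card_fin]
    omega

end lower

/-- The value of `m_3(m, n)` for all positive `m` and `n`. -/
theorem result (m n : ℕ) (hm : 1 ≤ m) (hn : 1 ≤ n) :
    m3 m n = if m = 1 then n else if n = 1 then m else if m = 2 then n / 2 + 2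
      else if n = 2 then m / 2 + 2 else 3 := by
  by_cases h1 : m = 1
  · rw [if_pos h1, h1, one_row]
  rw [if_neg h1]
  by_cases h2 : n = 1
  · rw [if_pos h2, h2, m3_comm, one_row]
  rw [if_neg h2]
  by_cases h3 : m = 2
  · rw [if_pos h3, h3]
    exact le_antisymm (two_le (by omega)) (two_ge (by omega))
  rw [if_neg h3]
  by_cases h4 : n = 2
  · rw [if_pos h4, h4, m3_comm]
    exact le_antisymm (two_le (by omega)) (two_ge (by omega))
  rw [if_neg h4]
  exact le_antisymm (large_le (by omega) (by omega)) (large_ge (by omega) (by omega))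

end Pool.Agent.Results.MP_87c242_co.AllGrids
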