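import Mathlib
import Pool.Agent.Q267.DV.Fin3

/-!
# Repunits in almost every real base: infinitely many prime integer parts

For real `x > 1` let `R x n = 1 + x + ... + x ^ (n - 1)`; at `x = 10` these are the decimal repunits.  For
every positive `C ^ 2` function `A` on `(1, ∞)`, every set `S` of lengths with divergent sum of `1 / n` (for
example all lengths, or the prime lengths) and almost every `x > 1` the integer part of `A x * R x n` is prime
for infinitely many `n ∈ S`.  If the sum converges, then for almost every `x > 1` it is prime for only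
finitely many `n ∈ S`.
-/

set_option autoImplicit false

namespace Pool.Agent.Results.MP_adea1b_nt.EveryDivergentIndexSet

open MeasureTheory

/-- The repunit of length `n` to the real base `x`. -/
noncomputable def R (x : ℝ) (n : ℕ) : ℝ := ∑ i ∈ Finset.range n, x ^ i

lemma R_eq {x : ℝ} (hx : 1 < x) (A : ℝ → ℝ) (n : ℕ) :
    A x / (x - 1) * (x ^ n - 1 ^ n) = A x * R x n := by
  have h : x - 1 ≠ 0 := by linarith
  unfold R
  rw [geom_sum_eq hx.ne', one_pow]
  field_simp

/-- The dichotomy: infinitely many prime values for almost every base if and only if the sum of `1 / n`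
over the set of lengths diverges. -/
theorem result :
    (∀ n : ℕ, R 10 n = ((∑ i ∈ Finset.range n, 10 ^ i : ℕ) : ℝ)) ∧
    (∀ A : ℝ → ℝ, ContDiffOn ℝ 2 A (Set.Ioi 1) → (∀ x, 1 < x → 0 < A x) →
      ∀ S : Set ℕ, (¬ Summable fun n : S => 1 / ((n : ℕ) : ℝ)) →
        ∀ᵐ x : ℝ, 1 < x → {n : ℕ | n ∈ S ∧ (⌊A x * R x n⌋₊).Prime}.Infinite) ∧
    (∀ A : ℝ → ℝ, ContDiffOn ℝ 2 A (Set.Ioi 1) → (∀ x, 1 < x → 0 < A x) →
      ∀ S : Set ℕ, (Summable fun n : S => 1 / ((n : ℕ) : ℝ)) →
        ∀ᵐ x : ℝ, 1 < x → {n : ℕ | n ∈ S ∧ (⌊A x * R x n⌋₊).Prime}.Finite) := by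
  have e : max 1 |(1 : ℝ)| = 1 := by simp
  have hd : ∀ A : ℝ → ℝ, ContDiffOn ℝ 2 A (Set.Ioi 1) →
      ContDiffOn ℝ 2 (fun x => A x / (x - 1)) (Set.Ioi (max 1 |(1 : ℝ)|)) := fun A hA => by
    rw [e]
    exact hA.div (by fun_prop) fun x hx => by
      have : (1 : ℝ) < x := hx
      linarith
  have hp : ∀ A : ℝ → ℝ, (∀ x, 1 < x → 0 < A x) → ∀ x, max 1 |(1 : ℝ)| < x → 0 < A x / (x - 1) :=
    fun A hA x hx => by
      rw [e] at hx
      exact div_pos (hA x hx) (by linarith)
  refine ⟨fun n => ?_, fun A hA hA0 S hS => ?_, fun A hA hA0 S hS => ?_⟩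
  · unfold R
    push_cast
    rfl
  · filter_upwards [Pool.Agent.Q267.DV.pow_inf 1 (hd A hA) (hp A hA0) hS] with x hx h1
    rw [e] at hx
    have h2 := Pool.Agent.Q267.DV.inf_of (hx h1)
    simp only [R_eq h1 A] at h2
    exact h2
  · filter_upwards [Pool.Agent.Q267.DV.pow_fin 1 (hd A hA) (hp A hA0) hS] with x hx h1
    rw [e] at hx
    have h2 := Pool.Agent.Q267.DV.fin_of (hx h1)
    simp only [R_eq h1 A] at h2
    exact h2

end Pool.Agent.Results.MP_adea1b_nt.EveryDivergentIndexSet
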